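import Pool.Agent.helper71.CPT.Final

/-!
# Residually small varieties of groups and subdirectly irreducible groups with nonabelian monolith

A residually small variety of groups is generated by a finite group `F` with abelian Sylow
subgroups, or by such a group and `ℤ`, unless it contains a subdirectly irreducible group of
cardinality at least the continuum whose least normal subgroup is nonabelian; and it is enough that
the countable subdirectly irreducible groups with nonabelian least normal subgroup embed in compact
Hausdorff groups, or that their least normal subgroups are separated.

The proof.  Let `E` be a subdirectly irreducible member with nonabelian monolith `A` and without a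
proper subdirectly irreducible extension in the variety with the same monolith (`exists_AR`).  If it
is smaller than the continuum, then there is no perfect tree of closed sets, and as in
`Pool/Agent/helper7/RC` it follows that `a` is a product of `k` conjugates of commutators of `y` for
all `y ≠ 1` and one `k`, so that `E` is finite (`finite_AR`).

Let `G` be any subdirectly irreducible member with nonabelian monolith `A`, and `U k` the set of the
`y` such that `a` is not a product of `k` conjugates of commutators of `y`.  If some `b` in `A` is
not a product of two elements of `A ∩ U k`, then an argument with normal subgroups of `G ^ ℕ` shows
that for every `k` there is `l` with `U l * U l ⊆ U k` (`doubling`).  So the quotient of `G ^ ℕ` by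
the sequences tending to `1` along an ultrafilter is a compact Hausdorff group `H` which contains
`G` (`exists_compact_group`).  If `G` embeds in a compact Hausdorff group, then by the Peter-Weyl
theorem (`PW_sep`) it has an isometric representation on a Euclidean space which is injective.
In a residually small variety each commutator `[x, y]` is a product of a bounded number of
conjugates of `[[x, y], x]`, `[[x, y], y]` and their inverses, and as
`‖[x, y] - 1‖ ≤ 2 ‖x - 1‖ ‖y - 1‖` the elements near `1` commute; so `G` is abelian by finite and
then finite (`fin_of_compact`).  An infinite `G` contains a countable infinite subdirectly
irreducible group with nonabelian monolith (`exists_countable_sub`).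

If the finite simple members have unbounded order, nested commutators in their product which
contain elements of prime order (or powers centralising all abelian normal subgroups) give an
infinite subdirectly irreducible member with nonabelian monolith (`simple_bounded`).  The variety
`U` generated by the virtually soluble members is therefore one of those in the list.  If `G` is a
finitely generated member and `R` its verbal subgroup for the laws of `U`, then `G / R` is central
by finite, `R` is the normal closure of a finite set, and a chief factor `R / M` of `G` would be
abelian, so that `G / M` is virtually soluble, or nonabelian, and then it survives in a finite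
quotient of `G`; so `R = 1`.
-/

namespace Pool.Agent.Results.MP_3c1c82_al.NonabelianMonolith

open Pool.Agent.helper80.RSV Pool.Agent.helper80.RN Pool.Agent.helper71.CPT

theorem result (W : Set (FreeGroup ℕ)) :
    List.TFAE [
      ResSmall W ∧ ∀ (G : Type) [Group G], Sat W G → NonabSI G →
        Cardinal.mk G < Cardinal.continuum ∨ InCompact G ∨ Sep2 G,
      ResSmall W ∧ ∀ (G : Type) [Group G], Countable G → Sat W G → NonabSI G →
        InCompact G ∨ Sep2 G,
      ResSmall W ∧ (∀ (G : Type) [Group G], Group.FG G → Sat W G → NonabSI G →
        InCompact G ∨ Sep2 G) ∧ ∃ B : ℕ, SimpleLe W B,
      ResSmall W ∧ ∀ (G : Type) [Group G], Sat W G → NonabSI G → Finite G,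
      ∀ (G : Type) [Group G], Sat W G → SubdirIrr G → Cardinal.mk G < Cardinal.continuum,
      ∀ (G : Type) [Group G], Sat W G → SubdirIrr G → Countable G,
      ∃ (F : Type) (_ : Group F), Finite F ∧ AbSylow F ∧
        ((∀ (G : Type) [Group G], Sat W G ↔ InVar F G) ∨
          (∀ (G : Type) [Group G], Sat W G ↔ InVar (F × Multiplicative ℤ) G))] :=
  final_CPT W

end Pool.Agent.Results.MP_3c1c82_al.NonabelianMonolith
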