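import Pool.Agent.helper80.RSV.Final

/-!
# Residually small varieties of groups

A variety of groups (given by a set `W` of laws) which is generated by its virtually soluble groups
with bounded nonabelian finite simple sections, or which has finite exponent and whose finitely
generated simple groups are finite of bounded order, is residually small if and only if it is
generated by a finite group `F` with abelian Sylow subgroups, or by such a group and `ℤ`; and then
all its subdirectly irreducible members are countable.
-/

namespace Pool.Agent.Results.MP_3c1c82_al.VirtuallySoluble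

open Pool.Agent.helper80.RSV

theorem result (W : Set (FreeGroup ℕ))
    (hV : (∃ B : ℕ, GenVSB W B) ∨
      ((∃ e : ℕ, 0 < e ∧ ∀ (G : Type) [Group G], Sat W G → ∀ g : G, g ^ e = 1) ∧
        ∃ B : ℕ, ∀ (G : Type) [Group G], Group.FG G → Sat W G → IsSimpleGroup G →
          Finite G ∧ Nat.card G ≤ B)) :
    List.TFAE [ResSmall W,
      ∀ (G : Type) [Group G], Sat W G → SubdirIrr G → Countable G,
      ∃ (F : Type) (_ : Group F), Finite F ∧ AbSylow F ∧
        ((∀ (G : Type) [Group G], Sat W G ↔ InVar F G) ∨
          (∀ (G : Type) [Group G], Sat W G ↔ InVar (F × Multiplicative ℤ) G))] := by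
  obtain ⟨h1, h2⟩ := final W hV
  tfae_have 1 → 2 := h2
  tfae_have 2 → 1 := rs_of_countable
  tfae_have 1 ↔ 3 := h1
  tfae_finish

end Pool.Agent.Results.MP_3c1c82_al.VirtuallySoluble
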